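import Pool.Agent.Q7.LS.Def

/-!
Project LS (helper7), jobs CTS, CUS (helper151): elements that are units at all primes above `v` are units for every
valuation of `L` that is integral on `𝓞 L` and positive on `v`.
-/

set_option autoImplicit false

namespace Pool.Agent.Q151.LS

open NumberField IsDedekindDomain
open Pool.Agent.Q7.LS

variable {F : Type} [Field F] [NumberField F] {L : Type} [Field L] [NumberField L] [Algebra F L]

/-- the prime ideal of a valuation -/
def cen {Γ : Type*} [LinearOrderedCommGroupWithZero Γ] (V : Valuation L Γ) (hV : ∀ x : 𝓞 L, V (x : L) ≤ 1) :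
    Ideal (𝓞 L) where
  carrier := {x | V (x : L) < 1}
  zero_mem' := by
    change V ((0 : 𝓞 L) : L) < 1
    simp
  add_mem' := by
    intro a b ha hb
    change V ((a + b : 𝓞 L) : L) < 1
    have h1 : ((a + b : 𝓞 L) : L) = (a : L) + (b : L) := map_add (algebraMap (𝓞 L) L) a b
    rw [h1]
    exact lt_of_le_of_lt (Valuation.map_add _ _ _) (max_lt ha hb)
  smul_mem' := by
    intro c x hx
    change V ((c * x : 𝓞 L) : L) < 1
    have h1 : ((c * x : 𝓞 L) : L) = (c : L) * (x : L) := map_mul (algebraMap (𝓞 L) L) c x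
    rw [h1, map_mul]
    exact lt_of_le_of_lt (mul_le_of_le_one_left' (hV c)) hx

theorem mem_cen {Γ : Type*} [LinearOrderedCommGroupWithZero Γ] (V : Valuation L Γ) (hV : ∀ x : 𝓞 L, V (x : L) ≤ 1)
    (x : 𝓞 L) : x ∈ cen V hV ↔ V (x : L) < 1 := Iff.rfl

/-- an element which is a unit at all primes above `v` is a unit for every valuation above `v` -/
theorem un_val {Γ : Type*} [LinearOrderedCommGroupWithZero Γ] (V : Valuation L Γ) (hV : ∀ x : 𝓞 L, V (x : L) ≤ 1)
    (v : HeightOneSpectrum (𝓞 F)) (hv : ∀ a ∈ v.asIdeal, V (algebraMap F L (a : F)) < 1) {w : L} (hw : Un v w) :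
    V w = 1 := by
  have hcoe : ∀ a : 𝓞 F, ((algebraMap (𝓞 F) (𝓞 L) a : 𝓞 L) : L) = algebraMap F L (a : F) := fun a =>
    (IsScalarTower.algebraMap_apply (𝓞 F) (𝓞 L) L a).symm.trans (IsScalarTower.algebraMap_apply (𝓞 F) F L a)
  have hpr : (cen V hV).IsPrime := by
    refine ⟨?_, ?_⟩
    · intro h
      have h1 : (1 : 𝓞 L) ∈ cen V hV := by rw [h]; trivial
      rw [mem_cen] at h1
      simp at h1
    · intro a b hab
      rw [mem_cen] at hab
      have h1 : ((a * b : 𝓞 L) : L) = (a : L) * (b : L) := map_mul (algebraMap (𝓞 L) L) a b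
      rw [h1, map_mul] at hab
      by_contra hcon
      push Not at hcon
      rw [mem_cen, mem_cen, not_lt, not_lt] at hcon
      rw [le_antisymm (hV a) hcon.1, le_antisymm (hV b) hcon.2, mul_one] at hab
      exact lt_irrefl _ hab
  have hne : cen V hV ≠ ⊥ := by
    obtain ⟨a, ha, ha0⟩ := Submodule.exists_mem_ne_zero_of_ne_bot v.ne_bot
    intro h
    have h1 : algebraMap (𝓞 F) (𝓞 L) a ∈ cen V hV := by
      rw [mem_cen, hcoe]
      exact hv a ha
    rw [h, Ideal.mem_bot] at h1
    have h2 := hcoe a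
    rw [h1] at h2
    have h3 : algebraMap F L (a : F) = 0 := by
      rw [← h2]
      simp
    rw [map_eq_zero] at h3
    exact ha0 (by exact_mod_cast h3)
  obtain ⟨P, hP⟩ : ∃ P : HeightOneSpectrum (𝓞 L), P.asIdeal = cen V hV := ⟨⟨cen V hV, hpr, hne⟩, rfl⟩
  have hab : Pool.Agent.Q7.LS.Ab v P := by
    unfold Pool.Agent.Q7.LS.Ab
    rw [Ideal.map_le_iff_le_comap, hP]
    intro a ha
    rw [Ideal.mem_comap, mem_cen, hcoe]
    exact hv a ha
  have h1 := hw P hab
  obtain ⟨n, d, hnd⟩ := P.exists_primeCompl_mul_eq_of_integer (K := L) w h1.le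
  have hunit : ∀ x : 𝓞 L, P.valuation L (x : L) = 1 → V (x : L) = 1 := by
    intro x hx
    refine le_antisymm (hV x) ?_
    by_contra hcon
    push Not at hcon
    have h2 : x ∈ P.asIdeal := by
      rw [hP, mem_cen]
      exact hcon
    have h3 := (P.valuation_lt_one_iff_mem (K := L) x).2 h2
    exact absurd hx h3.ne
  have hd : P.valuation L ((d : 𝓞 L) : L) = 1 := (P.valuation_eq_one_iff_notMem (K := L)).2 d.2
  have hn : P.valuation L ((n : 𝓞 L) : L) = 1 := by
    have h2 : P.valuation L (w * ((d : 𝓞 L) : L)) = P.valuation L (n : L) := congrArg _ hnd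
    rw [← h2, map_mul, h1, hd, one_mul]
  have h3 : V w * V ((d : 𝓞 L) : L) = V (n : L) := by
    rw [← map_mul]
    exact congrArg _ hnd
  rw [hunit _ hd, hunit _ hn, mul_one] at h3
  exact h3

/-- above `v`: conjugates -/
theorem un_conj {v : HeightOneSpectrum (𝓞 F)} {w : L} (hw : Un v w) (g : L ≃ₐ[F] L) : Un v (g w) := by
  intro P hP
  have h := un_val ((P.valuation L).comap (g : L →+* L)) (fun x => ?_) v (fun a ha => ?_) hw
  · exact h
  · change P.valuation L (g (x : L)) ≤ 1
    have h1 : IsIntegral ℤ (g (x : L)) := by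
      have := x.isIntegral_coe
      exact this.map (g.restrictScalars ℤ)
    exact P.valuation_le_one (K := L) (⟨g (x : L), h1⟩ : 𝓞 L)
  · change P.valuation L (g (algebraMap F L (a : F))) < 1
    rw [g.commutes]
    have h1 : algebraMap (𝓞 F) (𝓞 L) a ∈ P.asIdeal := hP (Ideal.mem_map_of_mem _ ha)
    have h2 := (P.valuation_lt_one_iff_mem (K := L) _).2 h1
    have hcoe : ((algebraMap (𝓞 F) (𝓞 L) a : 𝓞 L) : L) = algebraMap F L (a : F) :=
      (IsScalarTower.algebraMap_apply (𝓞 F) (𝓞 L) L a).symm.trans (IsScalarTower.algebraMap_apply (𝓞 F) F L a)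
    rw [← hcoe]
    exact h2

theorem un_mul {v : HeightOneSpectrum (𝓞 F)} {w w' : L} (hw : Un v w) (hw' : Un v w') : Un v (w * w') := by
  intro P hP
  rw [map_mul, hw P hP, hw' P hP, one_mul]

theorem un_one (v : HeightOneSpectrum (𝓞 F)) : Un (L := L) v 1 := by
  intro P _
  rw [map_one]

/-- the iterates of the cocycle -/
theorem un_iter {v : HeightOneSpectrum (𝓞 F)} {w y : L} (hw : Un v w) {σ : L ≃ₐ[F] L} (hy : w * y = σ y) (k : ℕ) :
    ∃ u : L, Un v u ∧ (σ ^ k) y = u * y := by
  induction k with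
  | zero => exact ⟨1, un_one v, by simp⟩
  | succ k ih =>
    obtain ⟨u, hu, hk⟩ := ih
    refine ⟨σ u * w, un_mul (un_conj hu σ) hw, ?_⟩
    rw [pow_succ', AlgEquiv.mul_apply, hk, map_mul, ← hy, mul_assoc]

end Pool.Agent.Q151.LS
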