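import Pool.Agent.Q224.LK.CR2T
import Pool.Agent.Q7.LS.Stm
import Pool.Agent.Q151.LS.Un

/-!
Project LS (helper7), job CTS (helper151): the conditions outside `p`, for elements that are units above `v`.
Adapted from `Pool/Agent/Q224/LK/CR2T.lean`.
-/

set_option autoImplicit false

namespace Pool.Agent.Q151.LS

open NumberField IsDedekindDomain Filter Topology Finset
open Pool.Agent.Q7.LK Pool.Agent.Q7.LS Pool.Agent.Q224.LK
open Pool.Agent.Q265.LK (lpw_mul lpw_pow vl_mul vl_pow vl_ppow)

section

variable {p : ℕ} [hp : Fact p.Prime] {F L : Type} [Field F] [NumberField F] [Field L] [NumberField L]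
  [Algebra F L] {d : F}

/-- the case of an order divisible by `p` -/
theorem case_unrS (hB : S_BAS) (hp2 : p ≠ 2) {ζ : F} (hζ : IsPrimitiveRoot ζ p) (hK : Kum p F L d)
    (hd : ¬ IsPow p d) {σ : L ≃ₐ[F] L} (hσ : σ ≠ 1) {v : HeightOneSpectrum (𝓞 F)} (hv : ¬ Dp p v) {w : L}
    (hw : Un v w) {y : L} (hy0 : y ≠ 0) (hy : w * y = σ y) (h0 : vl p v d = 0) :
    vl p v (Algebra.norm F y) = 0 := by
  obtain ⟨ρ, hρ0, hρ, ⟨b, hb, hσρ⟩, hρn⟩ := root_data hp2 hζ hK hd hσ
  set z := ζ ^ b with hz
  obtain ⟨P, hP⟩ := exists_above (L := L) v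
  have hab : Pool.Agent.Q7.LS.Ab v P := by
    unfold Pool.Agent.Q7.LS.Ab
    rw [Ideal.map_le_iff_le_comap]
    exact hP.over.le
  have hval : ∀ x : F, P.valuation L (algebraMap F L x) =
      v.valuation F x ^ (v.asIdeal.ramificationIdx' P.asIdeal) := fun x =>
    (HeightOneSpectrum.valuation_liesOver L v P x).symm
  have he : v.asIdeal.ramificationIdx' P.asIdeal ≠ 0 :=
    Ideal.IsDedekindDomain.ramificationIdx'_ne_zero_of_liesOver P.asIdeal v.ne_bot
  set e := v.asIdeal.ramificationIdx' P.asIdeal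
  have hd0 := kum_ne hd
  have hvd : v.valuation F d ≠ 0 := (Valuation.ne_zero_iff _).2 hd0
  -- a number with the valuation of `ρ`
  obtain ⟨t, ht⟩ : ∃ t : F, v.valuation F t ^ p = v.valuation F d := by
    have h1 : (p : ℤ) ∣ WithZero.log (v.valuation F d) := by
      have h2 : ((WithZero.log (v.valuation F d) : ℤ) : ZMod p) = 0 := by
        unfold vl at h0
        exact neg_eq_zero.1 h0
      exact (ZMod.intCast_zmod_eq_zero_iff_dvd _ p).1 h2
    obtain ⟨n, hn⟩ := h1
    obtain ⟨t, ht⟩ := v.valuation_surjective F (WithZero.exp n)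
    refine ⟨t, ?_⟩
    rw [ht, ← WithZero.exp_nsmul, nsmul_eq_mul, ← hn, WithZero.exp_log hvd]
  have hPρ : P.valuation L ρ = v.valuation F t ^ e := by
    have h1 : P.valuation L ρ ^ p = (v.valuation F t ^ e) ^ p := by
      rw [← map_pow, hρ, hval, ← ht, ← pow_mul, ← pow_mul, mul_comm]
    exact pow_left_injective hp.out.ne_zero h1
  -- the eigenvectors
  choose c hc using fun i => eig_coord hK.deg hσ hb hρ0 hσρ y i
  have hPe : ∀ i, P.valuation L (eig p (algebraMap F L z) σ y i) = v.valuation F (c i * t ^ i) ^ e := by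
    intro i
    rw [hc i, map_mul, map_pow, hPρ, hval, map_mul, map_pow, mul_pow, ← pow_mul, ← pow_mul, mul_comm e i]
  have hunit : ∀ k : ℕ, P.valuation L ((σ ^ k) y) = P.valuation L y := by
    intro k
    obtain ⟨u, hu, hk⟩ := un_iter hw hy k
    rw [hk, map_mul, hu P hab, one_mul]
  have hle : ∀ i, P.valuation L (eig p (algebraMap F L z) σ y i) ≤ P.valuation L y := by
    intro i
    unfold eig
    have h1 : P.valuation L (p : L) = 1 := by
      have := hval (p : F)
      rwa [map_natCast, val_p hv, one_pow] at this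
    rw [map_mul, map_inv₀, h1, inv_one, one_mul]
    refine Valuation.map_sum_le _ fun k _ => ?_
    have h2 : P.valuation L (algebraMap F L z) = 1 := by
      rw [hval, val_root v hp.out.ne_zero hb.pow_eq_one, one_pow]
    rw [map_mul, map_pow, map_inv₀, h2, inv_one, one_pow, one_mul, hunit]
  obtain ⟨i, hi⟩ : ∃ i, P.valuation L y ≤ P.valuation L (eig p (algebraMap F L z) σ y i) := by
    by_contra hcon
    push Not at hcon
    have hzL : IsPrimitiveRoot (algebraMap F L z) p := hb.map_of_injective (algebraMap F L).injective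
    have h1 : P.valuation L (∑ i ∈ range p, eig p (algebraMap F L z) σ y i) < P.valuation L y := by
      refine Valuation.map_sum_lt _ ((Valuation.ne_zero_iff _).2 hy0) fun i _ => hcon i
    rw [eig_sum hzL] at h1
    exact lt_irrefl _ h1
  have hPy : P.valuation L y = v.valuation F (c i * t ^ i) ^ e := by
    rw [← hPe]
    exact le_antisymm hi (hle i)
  set s := c i * t ^ i with hs
  have hs0 : s ≠ 0 := by
    intro h
    rw [h, map_zero, zero_pow he] at hPy
    exact (Valuation.ne_zero_iff _).2 hy0 hPy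
  have hN : v.valuation F (Algebra.norm F y) = v.valuation F (s ^ p) := by
    have h1 : v.valuation F (Algebra.norm F y) ^ e = v.valuation F (s ^ p) ^ e := by
      rw [← hval, norm_eq hK.deg hσ, map_prod, Finset.prod_congr rfl fun k _ => hunit k, Finset.prod_const,
        Finset.card_range, hPy, map_pow, ← pow_mul, ← pow_mul, mul_comm]
    exact pow_left_injective he h1
  have h1 : vl p v (Algebra.norm F y) = vl p v (s ^ p) := by
    unfold vl
    rw [hN]
  rw [h1, vl_ppow hB v hs0]

end

/-- **JOB CTS** -/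
theorem cts : S_BAS → S_CTS := by
  intro hB p hp hp2 F L _ _ _ _ _ ζ d hζ hK hd σ hσ v hv w hw y hy0 hy
  exact ⟨case_unrS hB hp2 hζ hK hd hσ hv hw hy0 hy, case_ram hB hp2 hζ hK hd hσ hv hy0⟩

end Pool.Agent.Q151.LS
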