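import Pool.Agent.Q14.LK.CR2U
import Pool.Agent.Q7.LS.Stm
import Pool.Agent.Q151.LS.Un

/-!
Project LS (helper7), job CUS (helper151): the classes at the places without condition, for elements that are units above `v`.
Adapted from `Pool/Agent/Q14/LK/CR2U.lean`.
-/

set_option autoImplicit false

namespace Pool.Agent.Q151.LS

open NumberField IsDedekindDomain Polynomial
open Pool.Agent.Q7.LK Pool.Agent.Q7.LS
open Pool.Agent.Q14.LK.CR2Ua

/-- an element that is a unit at all primes above `v` is a unit under all embeddings into the completion -/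
theorem un_emb {F : Type} [Field F] [NumberField F] {L : Type} [Field L] [NumberField L] [Algebra F L]
    (v : HeightOneSpectrum (𝓞 F)) (τ : L →ₐ[F] v.adicCompletion F) {w : L} (hw : Un v w) :
    Valued.v (τ w) = 1 := by
  have h := un_val ((Valued.v : Valuation (v.adicCompletion F) _).comap (τ : L →+* v.adicCompletion F))
    (fun x => val_le v (τ : L →+* v.adicCompletion F) x) v (fun a ha => ?_) hw
  · exact h
  · change Valued.v (τ (algebraMap F L (a : F))) < 1
    rw [τ.commutes, val_eq]
    exact (v.valuation_lt_one_iff_mem (K := F) a).2 ha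

/-- **JOB CUS** -/
theorem cus : S_BAS → S_CPL → S_CUS := by
  intro hB hC p _ hp2 F L _ _ _ _ _ ζ d hζ hK hd σ hσ v w hw y hy hwy
  have hp : p.Prime := Fact.out
  obtain ⟨e⟩ := eqv hK hd
  have hfd : FiniteDimensional F L := FiniteDimensional.of_finrank_pos (by rw [hK.deg]; exact hp.pos)
  refine ⟨Algebra.norm_ne_zero_iff.2 hy, fun _ => ?_, fun hL => ?_⟩
  · obtain ⟨z, rfl⟩ := e.surjective y
    rw [Algebra.norm_eq_of_algEquiv]
    exact norm_bc (X ^ p - C d : F[X]) (monic_X_pow_sub_C d hp.ne_zero) (X ^ p - C (d : v.adicCompletion F)) (by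
      rw [Polynomial.map_sub, Polynomial.map_pow, map_X, map_C]
      rfl) z
  · obtain ⟨_, s, hs⟩ := (hC p F v d).1 hL
    obtain ⟨τ, _⟩ : ∃ τ : L →ₐ[F] v.adicCompletion F, True :=
      ⟨(AdjoinRoot.liftAlgHom (X ^ p - C d : F[X]) (Algebra.ofId F (v.adicCompletion F)) s (by
        rw [eval₂_sub, eval₂_pow, eval₂_X, eval₂_C, ← hs]
        exact sub_self _)).comp e.symm.toAlgHom, trivial⟩
    obtain ⟨hcard, hG⟩ := gal hK.deg σ hσ
    have hiter : ∀ n : ℕ, Valued.v (τ ((σ ^ n) y)) = Valued.v (τ y) := by
      intro n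
      obtain ⟨u, hu, hk⟩ := un_iter hw hwy n
      rw [hk, map_mul, map_mul, un_emb v τ hu, one_mul]
    have hall : ∀ g : L ≃ₐ[F] L, Valued.v (τ (g y)) = Valued.v (τ y) := by
      intro g
      obtain ⟨n, hn⟩ := mem_powers_of_prime_card hcard hσ (g' := g)
      rw [← hn]
      exact hiter n
    have h1 := Algebra.norm_eq_prod_automorphisms F y
    have h2 : Valued.v (algebraMap F (v.adicCompletion F) (Algebra.norm F y)) = Valued.v (τ y) ^ p := by
      have h3 : algebraMap F (v.adicCompletion F) (Algebra.norm F y) = τ (algebraMap F L (Algebra.norm F y)) :=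
        (τ.commutes _).symm
      rw [h3, h1, map_prod, map_prod, Finset.prod_congr rfl fun g _ => hall g, Finset.prod_const, Finset.card_univ,
        ← Nat.card_eq_fintype_card, hcard]
    rw [val_eq] at h2
    unfold vl
    rw [h2, WithZero.log_pow]
    simp

end Pool.Agent.Q151.LS
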